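import Pool.Agent.Lib.MP_c3d375_an.Neg.Iface

/-!
# MP_c3d375 (S06050), module KER: the kernel relations for a system
-/

open Complex Metric Set Filter Topology ComplexConjugate

namespace C3N.H56

variable {H : Type} [NormedAddCommGroup H] [InnerProductSpace ℂ H] [CompleteSpace H]

theorem norm_inv_one_add {w : ℂ} (hw : 0 < w.re) : ‖(1 + w)⁻¹‖ ≤ 1 := by
  rw [norm_inv]
  apply inv_le_one_of_one_le₀
  calc (1 : ℝ) ≤ (1 + w).re := by rw [add_re, one_re]; linarith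
    _ ≤ ‖1 + w‖ := Complex.re_le_norm _

theorem norm_mul_inv_one_add {w : ℂ} (hw : 0 < w.re) : ‖w * (1 + w)⁻¹‖ ≤ 1 := by
  have h0 : (1 : ℂ) + w ≠ 0 := by
    intro h
    have := congrArg Complex.re h
    rw [add_re, one_re, zero_re] at this
    linarith
  rw [norm_mul, norm_inv, ← div_eq_mul_inv, div_le_one (norm_pos_iff.2 h0)]
  have h1 : ‖w‖ ^ 2 ≤ ‖1 + w‖ ^ 2 := by
    rw [← Complex.normSq_eq_norm_sq, ← Complex.normSq_eq_norm_sq, Complex.normSq_apply,
      Complex.normSq_apply]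
    simp only [add_re, one_re, add_im, one_im, zero_add]
    nlinarith
  exact (pow_le_pow_iff_left₀ (norm_nonneg _) (norm_nonneg _) two_ne_zero).1 h1

/-- the constant -/
noncomputable def MM (a : ℝ) : ℝ := 1000 / (1 - a) ^ 6

theorem MM_eq (a : ℝ) : MM a = 1000 * (1 / (1 - a)) ^ 6 := by
  unfold MM; rw [one_div, inv_pow, div_eq_mul_inv]

theorem sys_form {a e r : ℝ} (S : Sys a e r H) (ha : 0 < a) (ha1 : a < 1) (he : 0 < e)
    (he1 : e < 1) (h : Hol r) (c : ℂ) (hc : conj (fn h 0) = c) (hcn : ‖c‖ ≤ 1)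
    (hd : a * ‖deriv (fn h) a‖ ≤ 6 / (1 - a) ^ 2) (n : H) :
    cform S.Φ a e h n ≤ (inner ℂ n (S.Φ (h + c • 1) n)).re + MM a * e * ‖n‖ ^ 2 := by
  have h1 : (inner ℂ n (S.Φ (h + c • 1) n)).re =
      (inner ℂ n (S.Φ h n)).re + (fn h 0).re * ‖n‖ ^ 2 := by
    have e0 : inner ℂ n n = ((‖n‖ ^ 2 : ℝ) : ℂ) := by
      rw [inner_self_eq_norm_sq_to_K]; norm_cast
    rw [map_add, map_smul, map_one, add_apply, inner_add_right, add_re, smul_apply,
      inner_smul_right, one_apply_eq_self, e0, re_mul_ofReal, ← hc, conj_re]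
  have h2 : (fn h 0).re ≤ 1 := by
    have : ‖fn h 0‖ ≤ 1 := by rw [← hc, RCLike.norm_conj] at hcn; exact hcn
    exact (Complex.re_le_norm _).trans this
  have h3 : ((a : ℂ) * e * conj (deriv (fn h) a) * inner ℂ n (S.Φ (Bf a r) n)).re ≤
      e * (6 / (1 - a) ^ 2) * (4 / (1 - a)) * ‖n‖ ^ 2 := by
    refine (Complex.re_le_norm _).trans ?_
    rw [norm_mul, norm_mul, norm_mul, RCLike.norm_conj, Complex.norm_real, Complex.norm_real,
      Real.norm_of_nonneg ha.le, Real.norm_of_nonneg he.le]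
    have h4 : ‖inner ℂ n (S.Φ (Bf a r) n)‖ ≤ 4 / (1 - a) * ‖n‖ ^ 2 := by
      refine (norm_inner_le_norm _ _).trans ?_
      have := ((S.Φ (Bf a r)).le_opNorm n).trans
        (mul_le_mul_of_nonneg_right S.nB (norm_nonneg n))
      nlinarith [norm_nonneg n, mul_le_mul_of_nonneg_left this (norm_nonneg n)]
    calc a * e * ‖deriv (fn h) a‖ * ‖inner ℂ n (S.Φ (Bf a r) n)‖
        = e * (a * ‖deriv (fn h) a‖) * ‖inner ℂ n (S.Φ (Bf a r) n)‖ := by ring
      _ ≤ e * (6 / (1 - a) ^ 2) * (4 / (1 - a) * ‖n‖ ^ 2) := by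
        apply mul_le_mul _ h4 (norm_nonneg _)
        · have : 0 ≤ 6 / (1 - a) ^ 2 := by positivity
          positivity
        · exact mul_le_mul_of_nonneg_left hd he.le
      _ = _ := by ring
  unfold cform
  rw [h1]
  have ht : 1 ≤ 1 / (1 - a) := by
    rw [le_div_iff₀ (by linarith)]; linarith
  have h5 : (fn h 0).re * (1 + Ca a * e ^ 2) * ‖n‖ ^ 2 ≤
      (fn h 0).re * ‖n‖ ^ 2 + Ca a * e * ‖n‖ ^ 2 := by
    have hCa : 0 ≤ Ca a := by
      unfold Ca
      have : 0 < 1 - a := by linarith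
      positivity
    have : (fn h 0).re * (Ca a * e ^ 2) ≤ Ca a * e := by
      calc (fn h 0).re * (Ca a * e ^ 2) ≤ 1 * (Ca a * e ^ 2) :=
            mul_le_mul_of_nonneg_right h2 (by positivity)
        _ ≤ Ca a * e := by
            rw [one_mul]
            apply mul_le_mul_of_nonneg_left _ hCa
            nlinarith
    nlinarith [sq_nonneg ‖n‖, mul_le_mul_of_nonneg_right this (sq_nonneg ‖n‖)]
  have h6 : Ca a * e + e * (6 / (1 - a) ^ 2) * (4 / (1 - a)) ≤ MM a * e := by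
    have hCa : Ca a = 100 * (1 / (1 - a)) ^ 6 := by
      unfold Ca; rw [one_div, inv_pow, div_eq_mul_inv]
    have e1 : 6 / (1 - a) ^ 2 = 6 * (1 / (1 - a)) ^ 2 := by
      rw [one_div, inv_pow, div_eq_mul_inv]
    have e2 : 4 / (1 - a) = 4 * (1 / (1 - a)) := by
      rw [one_div, div_eq_mul_inv]
    rw [MM_eq, hCa, e1, e2]
    generalize 1 / (1 - a) = t at ht
    have h7 : t ^ 3 ≤ t ^ 6 := pow_le_pow_right₀ ht (by norm_num)
    have h8 : 0 ≤ t ^ 6 := by positivity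
    have : 100 * t ^ 6 + 24 * t ^ 3 ≤ 1000 * t ^ 6 := by linarith
    nlinarith [mul_le_mul_of_nonneg_right this he.le]
  nlinarith [mul_le_mul_of_nonneg_right h6 (sq_nonneg ‖n‖)]

theorem sys_ker {a e r : ℝ} (S : Sys a e r H) (ha : 0 < a) (ha1 : a < 1) (he : 0 < e)
    (he1 : e < 1) (h : Hol r) (hre : ∀ z ∈ closedBall (0 : ℂ) 1, 0 ≤ (fn h z).re) (c : ℂ)
    (hc : conj (fn h 0) = c) (hcn : ‖c‖ ≤ 1)
    (hd : a * ‖deriv (fn h) a‖ ≤ 6 / (1 - a) ^ 2) (n n' : H) :
    ‖inner ℂ n (S.Φ (Bf a r * (h + conj (fn h a) • 1)) n') +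
        inner ℂ (S.Φ (h + c • 1 + (a : ℂ) • dsl h a) n) n'‖ ≤
      MM a * √((inner ℂ n' (S.Φ (h + c • 1) n')).re + MM a * e * ‖n'‖ ^ 2) *
        √((inner ℂ n (S.Φ (h + c • 1) n)).re + MM a * e * ‖n‖ ^ 2) +
        MM a * e * ‖n‖ * ‖n'‖ := by
  obtain ⟨E1, E2, hE1, hE2, hk⟩ := S.ker h hre
  have hk := hk n n'
  rw [Algebra.algebraMap_eq_smul_one, Algebra.algebraMap_eq_smul_one, hc] at hk
  have h2 : (fn h 0).re ≤ 1 := by
    have : ‖fn h 0‖ ≤ 1 := by rw [← hc, RCLike.norm_conj] at hcn; exact hcn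
    exact (Complex.re_le_norm _).trans this
  have hCa : 0 ≤ Ca a := by
    unfold Ca
    have : 0 < 1 - a := by linarith
    positivity
  have ht : 1 ≤ 1 / (1 - a) := by
    rw [le_div_iff₀ (by linarith)]; linarith
  have hCe : Ca a * e * (fn h 0).re ≤ Ca a * e := by
    have : 0 ≤ Ca a * e := by positivity
    nlinarith
  have hE1' : ‖E1‖ ≤ Ca a * e := hE1.trans hCe
  have hE2' : ‖E2‖ ≤ Ca a * e := hE2.trans hCe
  set X1 := S.Φ (Bf a r * (h + conj (fn h a) • 1)) with hX1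
  set X2 := S.Φ (h + c • 1 + (a : ℂ) • dsl h a) with hX2
  have hsplit : inner ℂ n (X1 n') + inner ℂ (X2 n) n' =
      (inner ℂ n ((X1 + E1) n') + inner ℂ ((X2 + E2) n) n') -
        (inner ℂ n (E1 n') + inner ℂ (E2 n) n') := by
    rw [add_apply, add_apply, inner_add_right,
      inner_add_left]
    ring
  have herr : ‖inner ℂ n (E1 n') + inner ℂ (E2 n) n'‖ ≤ 2 * (Ca a * e) * ‖n‖ * ‖n'‖ := by
    refine (norm_add_le _ _).trans ?_
    have e1 : ‖inner ℂ n (E1 n')‖ ≤ ‖n‖ * (Ca a * e * ‖n'‖) :=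
      (norm_inner_le_norm _ _).trans (mul_le_mul_of_nonneg_left ((E1.le_opNorm n').trans
        (mul_le_mul_of_nonneg_right hE1' (norm_nonneg _))) (norm_nonneg _))
    have e2 : ‖inner ℂ (E2 n) n'‖ ≤ (Ca a * e * ‖n‖) * ‖n'‖ :=
      (norm_inner_le_norm _ _).trans (mul_le_mul_of_nonneg_right ((E2.le_opNorm n).trans
        (mul_le_mul_of_nonneg_right hE2' (norm_nonneg _))) (norm_nonneg _))
    nlinarith
  have hf := sys_form S ha ha1 he he1 h c hc hcn hd n
  have hf' := sys_form S ha ha1 he he1 h c hc hcn hd n'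
  have hCaM : 2 * (Ca a * e) ≤ MM a * e := by
    have hCa' : Ca a = 100 * (1 / (1 - a)) ^ 6 := by
      unfold Ca; rw [one_div, inv_pow, div_eq_mul_inv]
    rw [MM_eq, hCa']
    generalize 1 / (1 - a) = t at ht
    have h8 : 0 ≤ t ^ 6 * e := by positivity
    nlinarith
  have hM : 2 / (1 - a) ≤ MM a := by
    have e2 : 2 / (1 - a) = 2 * (1 / (1 - a)) := by
      rw [one_div, div_eq_mul_inv]
    rw [MM_eq, e2]
    generalize 1 / (1 - a) = t at ht
    have h7 : t ≤ t ^ 6 := le_self_pow₀ ht (by norm_num)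
    linarith
  rw [hsplit]
  refine (norm_sub_le _ _).trans (add_le_add (hk.trans ?_) (herr.trans ?_))
  · apply mul_le_mul _ (Real.sqrt_le_sqrt hf) (Real.sqrt_nonneg _)
    · exact mul_nonneg ((by have := hM; have h0 : 0 ≤ 2 / (1 - a) := by
                              have : 0 < 1 - a := by linarith
                              positivity
                            linarith : 0 ≤ MM a)) (Real.sqrt_nonneg _)
    · apply mul_le_mul hM (Real.sqrt_le_sqrt hf') (Real.sqrt_nonneg _)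
      have h0 : 0 ≤ 2 / (1 - a) := by
        have : 0 < 1 - a := by linarith
        positivity
      linarith
  · apply mul_le_mul_of_nonneg_right _ (norm_nonneg _)
    exact mul_le_mul_of_nonneg_right hCaM (norm_nonneg _)

theorem fn_dsl {r : ℝ} (h : Hol r) (a : ℝ) (ha : (a : ℂ) ∈ ball (0 : ℂ) r) {z : ℂ}
    (hz : z ∈ ball (0 : ℂ) r) : fn (dsl h a) z = dslope (fn h) a z := by
  have hd : DifferentiableOn ℂ (dslope (fn h) a) (ball 0 r) :=
    (Complex.differentiableOn_dslope (isOpen_ball.mem_nhds ha)).2 (fn_differentiableOn h)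
  unfold dsl
  rw [fn_hol hd hz]

theorem re_inv_pos {w : ℂ} (hw : 0 < w.re) : 0 < (w⁻¹).re := by
  rw [Complex.inv_re]
  refine div_pos hw (Complex.normSq_pos.2 ?_)
  rintro rfl
  rw [zero_re] at hw
  exact lt_irrefl _ hw

theorem bd_aux {a X : ℝ} (ha : 0 < a) (ha1 : a < 1) (hX : X ≤ 3 / (1 - a)) (_hX0 : 0 ≤ X) :
    2 * a * X / (1 - a ^ 2) ≤ 6 / (1 - a) ^ 2 := by
  have h1 : 0 < 1 - a := by linarith
  have h2 : 0 < 1 - a ^ 2 := by nlinarith
  rw [div_le_div_iff₀ h2 (by positivity)]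
  have h3 : X * (1 - a) ≤ 3 := by rwa [le_div_iff₀ h1] at hX
  have h4 : 0 ≤ a * (1 - a) := by positivity
  nlinarith [mul_le_mul_of_nonneg_left h3 h4]

/-- the kernel relations for a system -/
theorem ker_st (hP1 : P1Statement) (hNU : NUStatement) : KERStatement := by
  intro a ha ha1
  obtain ⟨e0, he0, hP⟩ := hP1 a ha ha1
  have ha0 : 0 < a := by linarith
  have h1a : 0 < 1 - a := by linarith
  have ht : 2 ≤ 1 / (1 - a) := by
    rw [le_div_iff₀ h1a]; linarith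
  have ht6 : 1 / (1 - a) ≤ (1 / (1 - a)) ^ 6 := le_self_pow₀ (by linarith) (by norm_num)
  have ht62 : (1 / (1 - a)) ^ 2 ≤ (1 / (1 - a)) ^ 6 :=
    pow_le_pow_right₀ (by linarith) (by norm_num)
  have hM2 : 2 ≤ MM a := by
    rw [MM_eq]; linarith
  refine ⟨MM a, hM2, min e0 1, lt_min he0 one_pos, ?_⟩
  intro e he hee H _ _ _ r hr hr' S q hq
  have hee0 : e < e0 := lt_of_lt_of_le hee (min_le_left _ _)
  have he1 : e < 1 := lt_of_lt_of_le hee (min_le_right _ _)
  have hP := hP e he hee0 H r hr hr' S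
  obtain ⟨hρ, _, hqh, h0, hνpos, hν, hν', hκ, hκ', _, hz⟩ := hNU a ha ha1 r hr hr' q hq
  -- basic facts
  have haball : (a : ℂ) ∈ ball (0 : ℂ) r := by
    rw [mem_ball_zero_iff, Complex.norm_real, Real.norm_of_nonneg ha0.le]; linarith
  have h0ball : (0 : ℂ) ∈ ball (0 : ℂ) r := mem_ball_self (by linarith)
  have hcb : closedBall (0 : ℂ) 1 ⊆ ball (0 : ℂ) r := closedBall_subset_ball hr
  have hre : ∀ z ∈ ball (0 : ℂ) r, 0 < (fn (qh q) z).re := by
    intro z hz'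
    rw [hqh z, ← ofReal_inv, re_ofReal_mul]
    exact mul_pos (inv_pos.2 hρ) (hq.re_pos z hz')
  have hne : ∀ z ∈ ball (0 : ℂ) r, fn (qh q) z ≠ 0 := by
    intro z hz' h
    have := hre z hz'
    rw [h, zero_re] at this
    exact lt_irrefl _ this
  have hre2 : ∀ z ∈ ball (0 : ℂ) r, 0 < ((fn (qh q) z) ^ 2).re := by
    intro z hz'
    rw [hqh z, ← ofReal_inv, mul_pow, ← ofReal_pow, re_ofReal_mul]
    exact mul_pos (pow_pos (inv_pos.2 hρ) 2) (hq.re_sq_pos z hz')
  have hν0 : nu q a ≠ 0 := by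
    intro h
    rw [h, zero_re] at hνpos
    exact lt_irrefl _ hνpos
  have hνc : conj (nu q a) = (fn (qh q) a) ^ 2 := by
    unfold nu; rw [Complex.conj_conj]
  have hνn : ‖(fn (qh q) a) ^ 2‖ = ‖nu q a‖ := by
    rw [← hνc, RCLike.norm_conj]
  have hq2 : ∀ z ∈ ball (0 : ℂ) r, fn (qh q ^ 2) z = (fn (qh q) z) ^ 2 := fun z hz' =>
    fn_pow _ _ hz'
  have hi2 : ∀ z ∈ ball (0 : ℂ) r, fn (qi q ^ 2) z = ((fn (qh q) z) ^ 2)⁻¹ := by
    intro z hz'
    rw [fn_pow _ _ hz', (hz z hz').1, inv_pow]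
  have hb1 : ‖(fn (qh q) 0) ^ 2‖ = 1 := by rw [norm_pow, h0, one_pow]
  have hbinv : ((fn (qh q) 0) ^ 2)⁻¹ = conj ((fn (qh q) 0) ^ 2) := by
    rw [Complex.inv_def, Complex.normSq_eq_norm_sq, hb1]
    norm_num
  -- derivatives
  have hmem : ball (0 : ℂ) r ∈ 𝓝 (a : ℂ) := isOpen_ball.mem_nhds haball
  set D : ℂ := deriv (fun z => (fn (qh q) z) ^ 2) a with hD
  have hDd : HasDerivAt (fun z => (fn (qh q) z) ^ 2) D a := by
    have : DifferentiableAt ℂ (fun z => (fn (qh q) z) ^ 2) a :=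
      ((fn_differentiableOn (qh q)).differentiableAt hmem).pow 2
    exact this.hasDerivAt
  have hdq : deriv (fn (qh q ^ 2)) a = D := by
    apply Filter.EventuallyEq.deriv_eq
    filter_upwards [hmem] with z hz'
    exact hq2 z hz'
  have hdi : deriv (fn (qi q ^ 2)) a = -D / ((fn (qh q) a) ^ 2) ^ 2 := by
    have h1 : fn (qi q ^ 2) =ᶠ[𝓝 (a : ℂ)] fun z => ((fn (qh q) z) ^ 2)⁻¹ := by
      filter_upwards [hmem] with z hz'
      exact hi2 z hz'
    rw [h1.deriv_eq]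
    exact (hDd.fun_inv (pow_ne_zero 2 (hne a haball))).deriv
  have hκn : ‖kap q a‖ = a * ‖D‖ := by
    unfold kap
    rw [norm_mul, RCLike.norm_conj, Complex.norm_real, Real.norm_of_nonneg ha0.le]
  have hνre : (nu q a).re ≤ 3 / (1 - a) := (Complex.re_le_norm _).trans hν
  have hνre' : ((nu q a)⁻¹).re ≤ 3 / (1 - a) := (Complex.re_le_norm _).trans hν'
  have hdq' : a * ‖deriv (fn (qh q ^ 2)) a‖ ≤ 6 / (1 - a) ^ 2 := by
    rw [hdq, ← hκn]
    exact hκ.trans (bd_aux ha0 ha1 hνre hνpos.le)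
  have hdi' : a * ‖deriv (fn (qi q ^ 2)) a‖ ≤ 6 / (1 - a) ^ 2 := by
    have h1 : a * ‖deriv (fn (qi q ^ 2)) a‖ = ‖kap q a * (nu q a)⁻¹ ^ 2‖ := by
      rw [hdi, norm_mul, hκn, norm_div, norm_neg, norm_pow ((fn (qh q) a) ^ 2), hνn, norm_pow,
        norm_inv, div_eq_mul_inv, inv_pow, mul_assoc]
    rw [h1]
    exact hκ'.trans (bd_aux ha0 ha1 hνre' (re_inv_pos hνpos).le)
  -- the difference quotient of the inverse
  have hdsl : dsl (qi q ^ 2) a =
      (-(conj (nu q a))⁻¹) • (qi q ^ 2 * dsl (qh q ^ 2) a) := by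
    apply hol_ext
    intro z hz'
    rw [fn_dsl _ _ haball hz', fn_smul, fn_mul, fn_dsl _ _ haball hz', hi2 z hz', hνc]
    have hqa := hne a haball
    have hqz := hne z hz'
    by_cases hza : z = a
    · rw [hza, dslope_same, dslope_same, hdq, hdi]
      field_simp
    · rw [dslope_of_ne _ hza, dslope_of_ne _ hza, slope_def_field, slope_def_field, hi2 z hz',
        hi2 a haball, hq2 z hz', hq2 a haball]
      have hza' : z - a ≠ 0 := sub_ne_zero.2 hza
      field_simp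
      ring
  -- values
  have hv0q : conj (fn (qh q ^ 2) 0) = conj ((fn (qh q) 0) ^ 2) := by rw [hq2 0 h0ball]
  have hv0i : conj (fn (qi q ^ 2) 0) = (fn (qh q) 0) ^ 2 := by
    rw [hi2 0 h0ball, hbinv, Complex.conj_conj]
  have hvaq : conj (fn (qh q ^ 2) a) = nu q a := by rw [hq2 a haball]; rfl
  have hvai : conj (fn (qi q ^ 2) a) = (nu q a)⁻¹ := by
    rw [hi2 a haball, map_inv₀]; rfl
  have hreq : ∀ z ∈ closedBall (0 : ℂ) 1, 0 ≤ (fn (qh q ^ 2) z).re := fun z hz' => by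
    rw [hq2 z (hcb hz')]; exact (hre2 z (hcb hz')).le
  have hrei : ∀ z ∈ closedBall (0 : ℂ) 1, 0 ≤ (fn (qi q ^ 2) z).re := fun z hz' => by
    rw [hi2 z (hcb hz')]; exact (re_inv_pos (hre2 z (hcb hz'))).le
  have hjn : ∀ z ∈ ball (0 : ℂ) r, ‖fn (jj q) z‖ ≤ 1 := fun z hz' => by
    rw [(hz z hz').2.1]; exact norm_inv_one_add (hre2 z hz')
  have hJn : ∀ z ∈ ball (0 : ℂ) r, ‖(fn (qh q) z) ^ 2 * fn (jj q) z‖ ≤ 1 := fun z hz' => by
    rw [(hz z hz').2.1]; exact norm_mul_inv_one_add (hre2 z hz')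
  refine ⟨?_, ?_, ?_, ?_, hb1, ?_, ?_, hν0, ?_, ?_, ?_, ?_, ?_, ?_⟩
  · apply hol_ext
    intro z hz'
    rw [fn_mul, (hz z hz').1, fn_one hz', mul_inv_cancel₀ (hne z hz')]
  · refine S.nB.trans ?_
    have e2 : 4 / (1 - a) = 4 * (1 / (1 - a)) := by rw [one_div, div_eq_mul_inv]
    rw [MM_eq, e2]; linarith
  · have hb : ∀ z ∈ closedBall (0 : ℂ) 1,
        ‖fn (Bf a r * (1 + (nu q a)⁻¹ • qh q ^ 2) * jj q) z‖ ≤
          2 * (1 / (1 - a)) * (1 + 3 * (1 / (1 - a))) := by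
      intro z hz'
      have hz' := hcb hz'
      rw [fn_mul, fn_mul, fn_add, fn_smul, fn_one hz', hq2 z hz']
      have e1 : fn (Bf a r) z * (1 + (nu q a)⁻¹ * (fn (qh q) z) ^ 2) * fn (jj q) z =
          fn (Bf a r) z * (fn (jj q) z + (nu q a)⁻¹ * ((fn (qh q) z) ^ 2 * fn (jj q) z)) := by
        ring
      rw [e1, norm_mul]
      have e3 : ‖fn (Bf a r) z‖ ≤ 2 * (1 / (1 - a)) := by
        refine (hz z hz').2.2.2.1.trans (le_of_eq ?_)
        rw [one_div, div_eq_mul_inv]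
      have e4 : ‖fn (jj q) z + (nu q a)⁻¹ * ((fn (qh q) z) ^ 2 * fn (jj q) z)‖ ≤
          1 + 3 * (1 / (1 - a)) := by
        refine (norm_add_le _ _).trans (add_le_add (hjn z hz') ?_)
        rw [norm_mul]
        have e5 : ‖(nu q a)⁻¹‖ ≤ 3 * (1 / (1 - a)) := by
          refine hν'.trans (le_of_eq ?_)
          rw [one_div, div_eq_mul_inv]
        have e6 := hJn z hz'
        calc ‖(nu q a)⁻¹‖ * ‖(fn (qh q) z) ^ 2 * fn (jj q) z‖ ≤ 3 * (1 / (1 - a)) * 1 :=
              mul_le_mul e5 e6 (norm_nonneg _) (by linarith)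
          _ = _ := mul_one _
      exact mul_le_mul e3 e4 (norm_nonneg _) (by linarith)
    refine (hP _ _ hb).trans ?_
    rw [MM_eq]
    generalize 1 / (1 - a) = t at ht ht6 ht62
    nlinarith
  · have hb : ∀ z ∈ closedBall (0 : ℂ) 1,
        ‖fn (jj q * dsl (qh q ^ 2) a) z‖ ≤ (1 + 3 * (1 / (1 - a))) * (1 / (1 - a)) := by
      intro z hz'
      have hdiff : DiffContOnCl ℂ (fn (jj q * dsl (qh q ^ 2) a)) (ball 0 1) := by
        apply DifferentiableOn.diffContOnCl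
        rw [closure_ball _ one_ne_zero]
        exact (fn_differentiableOn _).mono hcb
      refine Complex.norm_le_of_forall_mem_frontier_norm_le isBounded_ball hdiff ?_
        (z := z) (by rw [closure_ball _ one_ne_zero]; exact hz')
      intro y hy
      rw [frontier_ball _ one_ne_zero, mem_sphere_zero_iff_norm] at hy
      have hyb : y ∈ ball (0 : ℂ) r := by rw [mem_ball_zero_iff, hy]; exact hr
      have hya : 1 - a ≤ ‖y - a‖ := by
        have := norm_sub_norm_le y (a : ℂ)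
        rw [hy, Complex.norm_real, Real.norm_of_nonneg ha0.le] at this
        exact this
      have hyne : y ≠ a := by
        intro h
        rw [h, sub_self, norm_zero] at hya
        linarith
      rw [fn_mul, fn_dsl _ _ haball hyb, dslope_of_ne _ hyne, slope_def_field, hq2 y hyb,
        hq2 a haball]
      have e1 : fn (jj q) y * (((fn (qh q) y) ^ 2 - (fn (qh q) a) ^ 2) / (y - a)) =
          ((fn (qh q) y) ^ 2 * fn (jj q) y - (fn (qh q) a) ^ 2 * fn (jj q) y) / (y - a) := by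
        ring
      rw [e1, norm_div, div_eq_mul_inv]
      have e2 : ‖(fn (qh q) y) ^ 2 * fn (jj q) y - (fn (qh q) a) ^ 2 * fn (jj q) y‖ ≤
          1 + 3 * (1 / (1 - a)) := by
        refine (norm_sub_le _ _).trans (add_le_add (hJn y hyb) ?_)
        rw [norm_mul, hνn]
        have e5 : ‖nu q a‖ ≤ 3 * (1 / (1 - a)) := by
          refine hν.trans (le_of_eq ?_)
          rw [one_div, div_eq_mul_inv]
        calc ‖nu q a‖ * ‖fn (jj q) y‖ ≤ 3 * (1 / (1 - a)) * 1 :=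
              mul_le_mul e5 (hjn y hyb) (norm_nonneg _) (by linarith)
          _ = _ := mul_one _
      have e3 : ‖y - a‖⁻¹ ≤ 1 / (1 - a) := by
        rw [one_div]; exact inv_anti₀ h1a hya
      exact mul_le_mul e2 e3 (by positivity) (by linarith)
    refine (hP _ _ hb).trans ?_
    rw [MM_eq]
    generalize 1 / (1 - a) = t at ht ht6 ht62
    nlinarith
  · refine hν.trans ?_
    have e2 : 3 / (1 - a) = 3 * (1 / (1 - a)) := by rw [one_div, div_eq_mul_inv]
    rw [MM_eq, e2]; linarith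
  · refine hν'.trans ?_
    have e2 : 3 / (1 - a) = 3 * (1 / (1 - a)) := by rw [one_div, div_eq_mul_inv]
    rw [MM_eq, e2]; linarith
  · rw [abs_of_pos ha0]; exact ha1.le
  · rw [abs_of_pos ha0]; nlinarith
  · intro n
    exact (S.pos _ hrei n).trans (sys_form S ha0 ha1 he he1 _ _ hv0i hb1.le hdi' n)
  · intro n
    exact (S.pos _ hreq n).trans (sys_form S ha0 ha1 he he1 _ _ hv0q
      (by rw [RCLike.norm_conj]; exact hb1.le) hdq' n)
  · intro n n'
    have h := sys_ker S ha0 ha1 he he1 _ hrei _ hv0i hb1.le hdi' n n'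
    rw [hvai, hdsl, smul_smul, mul_neg, neg_smul, ← sub_eq_add_neg] at h
    exact h
  · intro n n'
    have h := sys_ker S ha0 ha1 he he1 _ hreq _ hv0q
      (by rw [RCLike.norm_conj]; exact hb1.le) hdq' n n'
    rw [hvaq] at h
    exact h

end C3N.H56
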